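import Pool.Agent.Helper76.TX.StAn

/-!
# Project TX, module AN1: decay of `f(u/D + iy)` at infinity and at `0`
-/

set_option autoImplicit false

open UpperHalfPlane CongruenceSubgroup Filter Topology Asymptotics
open scoped MatrixGroups ModularForm

namespace Pool.Agent.Helper61.TX

open Pool.Agent.Helper76.TX Pool.Agent.Helper14.CV

open ConjAct Pointwise in
private lemma dec (N : ℕ) [NeZero N] (f : CuspForm (G0 N) 2) (γ : SL(2, ℤ)) :
    ∃ c > 0, ∃ C Y : ℝ, ∀ τ : ℍ, Y ≤ τ.im → ‖(⇑f ∣[(2 : ℤ)] γ) τ‖ ≤ C * Real.exp (-c * τ.im) := by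
  have : ((toConjAct (γ : GL (Fin 2) ℝ)⁻¹) • (G0 N)).IsArithmetic := by
    simpa [(show Rat.castHom ℝ = algebraMap ℚ ℝ by rfl), map_inv, Matrix.SpecialLinearGroup.map_mapGL]
      using! Subgroup.IsArithmetic.conj (G0 N) (Matrix.SpecialLinearGroup.mapGL ℚ γ)⁻¹
  obtain ⟨c, hc, hO⟩ := CuspFormClass.exp_decay_atImInfty' (CuspForm.translate f γ)
  obtain ⟨C, hC⟩ := hO.bound
  rw [atImInfty, Filter.eventually_comap] at hC
  obtain ⟨Y, hY⟩ := Filter.eventually_atTop.1 hC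
  refine ⟨c, hc, C, Y, fun τ hτ => ?_⟩
  have := hY τ.im hτ τ rfl
  rw [Real.norm_eq_abs, abs_of_pos (Real.exp_pos _)] at this
  exact this

private lemma slash_eq (N : ℕ) [NeZero N] (f : CuspForm (G0 N) 2) (γ : SL(2, ℤ)) (z : ℂ)
    (hz : 0 < z.im) :
    (⇑f ∣[(2 : ℤ)] γ) ⟨z, hz⟩ =
      fz f (((γ 0 0 : ℤ) * z + (γ 0 1 : ℤ)) / ((γ 1 0 : ℤ) * z + (γ 1 1 : ℤ))) *
        (((γ 1 0 : ℤ) * z + (γ 1 1 : ℤ)) ^ 2)⁻¹ := by
  have h1 := coe_specialLinearGroup_apply (R := ℤ) γ ⟨z, hz⟩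
  simp only [algebraMap_int_eq, eq_intCast, Complex.ofReal_intCast] at h1
  rw [ModularForm.SL_slash_apply]
  have h2 : denom (γ : GL (Fin 2) ℝ) z = ((γ 1 0 : ℤ) : ℂ) * z + ((γ 1 1 : ℤ) : ℂ) := by
    simp [denom]
  have h3 : fz f (((γ 0 0 : ℤ) * z + (γ 0 1 : ℤ)) / ((γ 1 0 : ℤ) * z + (γ 1 1 : ℤ))) =
      f (γ • (⟨z, hz⟩ : ℍ)) := by
    rw [fz]
    congr 1
    have h4 := UpperHalfPlane.ofComplex_apply (γ • (⟨z, hz⟩ : ℍ))
    rw [h1] at h4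
    exact h4
  rw [h3]
  have h5 : denom (γ : GL (Fin 2) ℝ) ((⟨z, hz⟩ : ℍ) : ℂ) = denom (γ : GL (Fin 2) ℝ) z := rfl
  rw [h5, h2, zpow_neg]
  norm_cast

private lemma zim (x y : ℝ) : ((x : ℂ) + (y : ℂ) * Complex.I).im = y := by simp

private lemma hU_eq {N : ℕ} (f : CuspForm (G0 N) 2) (D u : ℕ) (y : ℝ) (hy : 0 < y) :
    hU D f u y = f ⟨(u : ℂ) / (D : ℂ) + (y : ℂ) * Complex.I, by
      have : ((u : ℂ) / (D : ℂ)) = (((u : ℝ) / (D : ℝ) : ℝ) : ℂ) := by push_cast; rfl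
      rw [this, zim]; exact hy⟩ := by
  unfold hU fz
  rw [UpperHalfPlane.ofComplex_apply_of_im_pos]

private lemma cont {N : ℕ} (f : CuspForm (G0 N) 2) (D u : ℕ) :
    ContinuousOn (hU D f u) (Set.Ioi 0) := by
  have h := (UpperHalfPlane.mdifferentiable_iff.mp (CuspFormClass.holo f)).continuousOn
  have h2 : ContinuousOn (fun y : ℝ => (u : ℂ) / (D : ℂ) + (y : ℂ) * Complex.I) (Set.Ioi 0) := by
    fun_prop
  refine h.comp h2 ?_
  intro y hy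
  have : ((u : ℂ) / (D : ℂ)) = (((u : ℝ) / (D : ℝ) : ℝ) : ℂ) := by push_cast; rfl
  show 0 < ((u : ℂ) / (D : ℂ) + (y : ℂ) * Complex.I).im
  rw [this, zim]
  exact hy

private lemma atinf {N : ℕ} [NeZero N] (f : CuspForm (G0 N) 2) (D u : ℕ) :
    hU D f u =O[atTop] fun y : ℝ => Real.exp (-(2 * Real.pi) * y) := by
  have h := CuspFormClass.exp_decay_atImInfty (h := 1) f one_pos
    (by simp : (1 : ℝ) ∈ (G0 N).strictPeriods)
  obtain ⟨C, hC⟩ := h.bound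
  rw [atImInfty, Filter.eventually_comap] at hC
  refine IsBigO.of_bound C ?_
  filter_upwards [hC, eventually_gt_atTop 0] with y hy hy0
  rw [hU_eq f D u y hy0]
  have e : ((u : ℂ) / (D : ℂ)) = (((u : ℝ) / (D : ℝ) : ℝ) : ℂ) := by push_cast; rfl
  have := hy ⟨(u : ℂ) / (D : ℂ) + (y : ℂ) * Complex.I, by rw [e, zim]; exact hy0⟩
    (by show ((u : ℂ) / (D : ℂ) + (y : ℂ) * Complex.I).im = y; rw [e, zim])
  refine this.trans (le_of_eq ?_)
  congr 3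
  show -2 * Real.pi * ((u : ℂ) / (D : ℂ) + (y : ℂ) * Complex.I).im / 1 = _
  rw [e, zim]
  ring

private lemma atzero {N : ℕ} [NeZero N] (f : CuspForm (G0 N) 2) (D u : ℕ) (hD : 0 < D) (b : ℝ) :
    hU D f u =O[𝓝[>] 0] fun y : ℝ => y ^ (-b) := by
  -- lowest terms
  set g := Nat.gcd u D with hg
  have hgpos : 0 < g := Nat.gcd_pos_of_pos_right _ hD
  obtain ⟨u', hu'⟩ := Nat.gcd_dvd_left u D
  obtain ⟨D', hD'⟩ := Nat.gcd_dvd_right u D
  rw [← hg] at hu' hD'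
  have hD'pos : 0 < D' := by
    rcases Nat.eq_zero_or_pos D' with h | h
    · rw [h, mul_zero] at hD'; omega
    · exact h
  have hcop : IsCoprime (u' : ℤ) (D' : ℤ) := by
    rw [Nat.isCoprime_iff_coprime]
    have h1 := Nat.coprime_div_gcd_div_gcd (m := u) (n := D) (by rw [← hg]; exact hgpos)
    rw [← hg] at h1
    have h2 : u / g = u' := by
      conv_lhs => rw [hu']
      exact Nat.mul_div_cancel_left _ hgpos
    have h3 : D / g = D' := by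
      conv_lhs => rw [hD']
      exact Nat.mul_div_cancel_left _ hgpos
    rwa [h2, h3] at h1
  obtain ⟨s, t, hst⟩ := hcop
  -- the matrix (u' -t; D' s)
  let γ : SL(2, ℤ) := ⟨!![(u' : ℤ), -t; (D' : ℤ), s], by
    rw [Matrix.det_fin_two_of]; linarith⟩
  have g00 : (γ 0 0 : ℤ) = u' := rfl
  have g01 : (γ 0 1 : ℤ) = -t := rfl
  have g10 : (γ 1 0 : ℤ) = D' := rfl
  have g11 : (γ 1 1 : ℤ) = s := rfl
  obtain ⟨c, hc, C, Y, hb⟩ := dec N f γ
  have hDR : (0 : ℝ) < D' := by exact_mod_cast hD'pos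
  have hDC : (D' : ℂ) ≠ 0 := by exact_mod_cast hD'pos.ne'
  have hfrac : (u : ℂ) / (D : ℂ) = (u' : ℂ) / (D' : ℂ) := by
    rw [hu', hD']
    push_cast
    rw [mul_div_mul_left]
    exact_mod_cast hgpos.ne'
  have hstC : (s : ℂ) * u' + t * D' = 1 := by exact_mod_cast hst
  -- the pointwise bound
  have key : ∀ y : ℝ, 0 < y → Y ≤ 1 / ((D' : ℝ) ^ 2 * y) →
      ‖hU D f u y‖ ≤ C * Real.exp (-c * (1 / ((D' : ℝ) ^ 2 * y))) * ((D' : ℝ) * y)⁻¹ ^ 2 := by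
    intro y hy hY
    set w : ℂ := ((-(s : ℝ) / D' : ℝ) : ℂ) + ((1 / ((D' : ℝ) ^ 2 * y) : ℝ) : ℂ) * Complex.I with hw
    have hwim : w.im = 1 / ((D' : ℝ) ^ 2 * y) := by rw [hw]; exact zim _ _
    have hwpos : 0 < w.im := by rw [hwim]; positivity
    have h1 := hb ⟨w, hwpos⟩ (by show Y ≤ w.im; rw [hwim]; exact hY)
    rw [slash_eq N f γ w hwpos, g00, g01, g10, g11] at h1
    have hyC : (y : ℂ) ≠ 0 := by exact_mod_cast hy.ne'
    have e1 : ((D' : ℤ) : ℂ) * w + ((s : ℤ) : ℂ) = Complex.I / (D' * y) := by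
      rw [hw]
      push_cast
      field_simp
      ring
    have e2 : (((u' : ℤ) : ℂ) * w + ((-t : ℤ) : ℂ)) / (((D' : ℤ) : ℂ) * w + ((s : ℤ) : ℂ)) =
        (u : ℂ) / (D : ℂ) + (y : ℂ) * Complex.I := by
      rw [e1, hfrac, div_eq_iff (div_ne_zero Complex.I_ne_zero (mul_ne_zero hDC hyC)), hw]
      push_cast
      field_simp
      have hI : Complex.I ^ 2 = -1 := Complex.I_sq
      linear_combination (-(D' : ℂ) * (y : ℂ)) * hstC - (D' : ℂ) * (y : ℂ) * hI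
    rw [e2, e1] at h1
    have e3 : fz f ((u : ℂ) / (D : ℂ) + (y : ℂ) * Complex.I) = hU D f u y := rfl
    rw [e3, norm_mul] at h1
    have e4 : ‖((Complex.I / (D' * y) : ℂ) ^ 2)⁻¹‖ = ((D' : ℝ) * y) ^ 2 := by
      rw [norm_inv, norm_pow, norm_div, Complex.norm_I, norm_mul, Complex.norm_natCast,
        Complex.norm_real, Real.norm_eq_abs, abs_of_pos hy, one_div, inv_pow, inv_inv]
    rw [e4] at h1
    have h2 : (0 : ℝ) < ((D' : ℝ) * y) ^ 2 := by positivity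
    have h3 : UpperHalfPlane.im (⟨w, hwpos⟩ : ℍ) = 1 / ((D' : ℝ) ^ 2 * y) := hwim
    rw [h3] at h1
    rw [inv_pow, ← div_eq_mul_inv, le_div_iff₀ h2]
    exact h1
  -- asymptotics
  set c' : ℝ := c / (D' : ℝ) ^ 2 with hc'
  have hc'pos : 0 < c' := by positivity
  have hinv : Tendsto (fun y : ℝ => y⁻¹) (𝓝[>] 0) atTop := tendsto_inv_nhdsGT_zero
  have hE := ((isLittleO_exp_neg_mul_rpow_atTop hc'pos (b - 2)).isBigO).comp_tendsto hinv
  obtain ⟨K, hK⟩ := hE.bound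
  have hYev : ∀ᶠ y : ℝ in 𝓝[>] 0, Y ≤ 1 / ((D' : ℝ) ^ 2 * y) := by
    have h1 : Tendsto (fun y : ℝ => ((D' : ℝ) ^ 2)⁻¹ * y⁻¹) (𝓝[>] 0) atTop :=
      hinv.const_mul_atTop (by positivity)
    filter_upwards [h1.eventually_ge_atTop Y] with y hy
    refine hy.trans (le_of_eq ?_)
    rw [one_div, mul_inv]
  refine IsBigO.of_bound (|C| * K * ((D' : ℝ)⁻¹) ^ 2) ?_
  filter_upwards [hK, hYev, self_mem_nhdsWithin] with y hy1 hy2 hy3
  have hy0 : (0 : ℝ) < y := hy3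
  refine (key y hy0 hy2).trans ?_
  simp only [Function.comp_apply, Real.norm_eq_abs, abs_of_pos (Real.exp_pos _)] at hy1
  have e5 : -c * (1 / ((D' : ℝ) ^ 2 * y)) = -c' * y⁻¹ := by
    rw [hc']
    field_simp
  rw [e5]
  have e6 : |(y⁻¹) ^ (b - 2)| = y ^ (-b) * y ^ 2 := by
    rw [abs_of_pos (Real.rpow_pos_of_pos (inv_pos.2 hy0) _), Real.inv_rpow hy0.le,
      ← Real.rpow_neg hy0.le, ← Real.rpow_natCast y 2, ← Real.rpow_add hy0]
    congr 1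
    push_cast
    ring
  rw [e6] at hy1
  rw [Real.norm_eq_abs, abs_of_pos (Real.rpow_pos_of_pos hy0 _)]
  have hyb : 0 < y ^ (-b) := Real.rpow_pos_of_pos hy0 _
  calc C * Real.exp (-c' * y⁻¹) * ((D' : ℝ) * y)⁻¹ ^ 2
      ≤ |C| * Real.exp (-c' * y⁻¹) * ((D' : ℝ) * y)⁻¹ ^ 2 := by
        gcongr
        exact le_abs_self C
    _ ≤ |C| * (K * (y ^ (-b) * y ^ 2)) * ((D' : ℝ) * y)⁻¹ ^ 2 := by
        gcongr
    _ = |C| * K * ((D' : ℝ)⁻¹) ^ 2 * y ^ (-b) := by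
        rw [mul_inv]
        field_simp

theorem hAN1 : StAN1 := by
  intro N hN f D u hD
  exact ⟨cont f D u, atinf f D u, atzero f D u hD⟩

end Pool.Agent.Helper61.TX
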